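import Pool.Agent.Helper996.Lin.Main
import Pool.Agent.Helper996.Lin.Defs5b
import Pool.Agent.Helper996.Lin.J_cent
import Pool.Agent.Helper996.Lin.J_emb_Fof
import Pool.Agent.Helper996.Lin.J_Fof_rank
import Pool.Agent.Helper996.Lin.J_orbit
import Pool.Agent.Helper996.Lin.J_cyclic

/-!
Compositions `G_k^0 → X → G_n^0` of holomorphic maps through a complex manifold `X` of dimension
`l ≤ k - 4` have cyclic image on fundamental groups, i.e. are splittable.

* `LinS.cpoly k w` is the polynomial `X^k + ∑_{i<k-1} w_i X^i` (no term of degree `k-1`);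
* `LinS.G0 k` is the open set of the `w : Fin (k-1) → ℂ` for which it is squarefree, i.e. has non-zero
  discriminant: the manifold `G_k^0` with coordinates `z_2,...,z_k`.
-/

set_option autoImplicit false

open Polynomial Set Filter Topology
open scoped Manifold ContDiff

namespace Pool.Agent.Results.MP_2d36f7_ag.SmallDim

open LinS

/-- `f : M → M'` is holomorphic, for complex manifolds `M`, `M'` modelled on `E`, `E'` -/
def Hol (E E' : Type*) [NormedAddCommGroup E] [NormedSpace ℂ E] [NormedAddCommGroup E']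
    [NormedSpace ℂ E'] {M M' : Type*} [TopologicalSpace M] [ChartedSpace E M]
    [TopologicalSpace M'] [ChartedSpace E' M'] (f : M → M') : Prop :=
  MDifferentiable 𝓘(ℂ, E) 𝓘(ℂ, E') f

/-- `f` is continuous, and the image of the homomorphism of fundamental groups induced by `f`
(at any base point) is cyclic -/
def CyclicImage {Y Z : Type*} [TopologicalSpace Y] [TopologicalSpace Z] (f : Y → Z) : Prop :=
  ∃ hf : Continuous f, ∀ y : Y, IsCyclic (FundamentalGroup.map (⟨f, hf⟩ : C(Y, Z)) y).range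

/-- compositions `G_k^0 → X → G_n^0` through a complex manifold `X` of dimension `l ≤ k - 4` are
splittable -/
theorem result (k n l : ℕ) (hk : 4 < k) (hn : 3 ≤ n) (hl : l + 4 ≤ k)
    (X : Type*) [TopologicalSpace X] [ChartedSpace (Fin l → ℂ) X]
    [IsManifold 𝓘(ℂ, Fin l → ℂ) ω X]
    (f₁ : G0 k → X) (hf₁ : Hol (Fin (k - 1) → ℂ) (Fin l → ℂ) f₁)
    (f₂ : X → G0 n) (hf₂ : Hol (Fin l → ℂ) (Fin (n - 1) → ℂ) f₂) :
    CyclicImage (f₂ ∘ f₁) := by
  obtain ⟨m, rfl⟩ : ∃ m, k = m + 1 := ⟨k - 1, by omega⟩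
  have hc : MDifferentiable 𝓘(ℂ, Fin (m + 1 - 1) → ℂ) 𝓘(ℂ, Fin (n - 1) → ℂ) (f₂ ∘ f₁) :=
    MDifferentiable.comp hf₂ hf₁
  have hF : GoodF m n (Fof (f₂ ∘ f₁)) := Fof_good (by omega) _ hc
  have h1 := main_abs hF hn l (by omega) (by omega) (Fof_rank f₁ hf₁ f₂ hf₂)
  have h2 := orbit_of_shape hn (f₂ ∘ f₁) h1
  exact ⟨hc.continuous, fun z => cyclic_of_orbit hn _ h2 z⟩

end Pool.Agent.Results.MP_2d36f7_ag.SmallDim
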